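import Mathlib
import Pool.Agent.P.MP_25f57f_ag.Defs
import Pool.Agent.P.MP_25f57f_ag.Six5

set_option autoImplicit false

open Pool.Agent.P.MP_25f57f_ag

namespace Pool.Agent.Results.MP_25f57f_ag.MoreArcs

/-- For `(p,q) = (3,3)`, `γ = 1+-+-1` and `α = 11-+22`, the orbit closure of `α` is an irreducible
component of the singular locus of the orbit closure of `γ`, all arcs of `α` join adjacent
vertices, and `α` has more arcs than `γ`. -/
theorem result :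
    ∃ γ α : Fin (3 + 3) → Units ℤ ⊕ ℕ,
      γ = ![Sum.inr 1, Sum.inl 1, Sum.inl (-1), Sum.inl 1, Sum.inl (-1), Sum.inr 1] ∧
      α = ![Sum.inr 1, Sum.inr 1, Sum.inl (-1), Sum.inl 1, Sum.inr 2, Sum.inr 2] ∧
      IsClan 3 3 γ ∧ IsClan 3 3 α ∧
      Maximal (fun Z : Set (FlagVar (3 + 3)) => IsIrreducible Z ∧ Z ⊆ sing (closure (orbit 3 3 γ)))
        (closure (orbit 3 3 α)) ∧
      (∀ i j : Fin (3 + 3), IsArc α i j → (j : ℕ) = (i : ℕ) + 1) ∧
      {ij : Fin (3 + 3) × Fin (3 + 3) | IsArc γ ij.1 ij.2}.ncard <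
        {ij : Fin (3 + 3) × Fin (3 + 3) | IsArc α ij.1 ij.2}.ncard :=
  ⟨Six.gam, Six.alp, rfl, rfl, Six.isClan_gam, Six.isClan_alp, Six.maximal_main, Six.adj_alp,
    Six.arcs_lt⟩

end Pool.Agent.Results.MP_25f57f_ag.MoreArcs
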