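import Mathlib
import Pool.Agent.P.MP_25f57f_ag.Defs
import Pool.Agent.P.MP_25f57f_ag.Fam3

set_option autoImplicit false

open Pool.Agent.P.MP_25f57f_ag

namespace Pool.Agent.Results.MP_25f57f_ag.Unbounded

/-- For all `p ≥ 3`, `q ≥ 2`, with `γ = 1 +...+ 2 -...- 2 1` (`p - 2` signs plus, `q - 2` signs minus)
and `α = +...+ 1 -...- 1` (`p - 1` signs plus, `q - 1` signs minus), the singular locus of the orbit
closure of `γ` is the orbit closure of `α`, which is irreducible; `γ` has two arcs and the only arc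
of `α` joins two vertices at distance `q`. Positions are numbered from `0`. -/
theorem result (p q : ℕ) (hp : 3 ≤ p) (hq : 2 ≤ q) :
    ∃ γ α : Fin (p + q) → Units ℤ ⊕ ℕ,
      (∀ k, γ k = if (k : ℕ) = 0 ∨ (k : ℕ) + 1 = p + q then Sum.inr 1
        else if (k : ℕ) + 1 = p ∨ (k : ℕ) + 2 = p + q then Sum.inr 2
        else if (k : ℕ) < p then Sum.inl 1 else Sum.inl (-1)) ∧
      (∀ k, α k = if (k : ℕ) + 1 = p ∨ (k : ℕ) + 1 = p + q then Sum.inr 1
        else if (k : ℕ) < p then Sum.inl 1 else Sum.inl (-1)) ∧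
      IsClan p q γ ∧ IsClan p q α ∧
      sing (closure (orbit p q γ)) = closure (orbit p q α) ∧
      Maximal (fun Z : Set (FlagVar (p + q)) => IsIrreducible Z ∧ Z ⊆ sing (closure (orbit p q γ)))
        (closure (orbit p q α)) ∧
      {ij : Fin (p + q) × Fin (p + q) | IsArc γ ij.1 ij.2}.ncard = 2 ∧
      ∀ i j : Fin (p + q), IsArc α i j ↔ (i : ℕ) + 1 = p ∧ (j : ℕ) + 1 = p + q :=
  ⟨Fam.gam p q, Fam.alp p q, fun _ => rfl, fun _ => rfl, Fam.isClan_gam hp hq,
    Fam.isClan_alp hp hq, Fam.sing_main hp hq, Fam.maximal_main hp hq, Fam.arcs_gam hp hq,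
    fun _ _ => Fam.arc_alp hp hq⟩

end Pool.Agent.Results.MP_25f57f_ag.Unbounded
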